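import Pool.Agent.W858.SF.Near

/-! # Twists over a field embedded into the completion of a number field -/

namespace Pool.Agent.W858.SG

open IsDedekindDomain NumberField WithZero Polynomial Pool.Agent.W623.SecC Pool.Agent.W858.SF

universe u v w x y

theorem fine_scale {k : Type u} [Field k] (f : k[X]) (d a : k)
    (h : Fine.{u, v, w} (d * a) (C d * f)) : Fine.{u, v, w} a f := by
  refine ⟨?_, ?_, ?_⟩
  · intro F Ω _ _ _ _ _ _ _ _ U hU x y hxy
    refine h.1 F Ω U hU x y ?_
    rw [map_mul, map_mul, aeval_C, mul_assoc, hxy]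
  · intro x y hxy
    refine h.2.1 x y ?_
    rw [eval_mul, eval_C, mul_assoc, hxy]
  · intro r hr
    refine h.2.2 r ?_
    rw [leadingCoeff_mul, leadingCoeff_C, mul_assoc, hr]

theorem fine_emb {L : Type x} [Field L] [NumberField L] (v : HeightOneSpectrum (𝓞 L))
    {R : Type y} [CommRing R] {k : Type u} [Field k] [CharZero k] [Algebra R k]
    (hinjk : Function.Injective (algebraMap R k)) (P : R →+* L) (ψ : k →+* v.adicCompletion L)
    (hPint : ∀ r, v.valuation L (P r) ≤ 1)
    (hψ : ∀ r, vv v (ψ (algebraMap R k r) - algebraMap L (v.adicCompletion L) (P r)) ≤ exp (-2))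
    (h2 : (2 : 𝓞 L) ∉ v.asIdeal) (G : R[X]) (N : 𝓞 L) (hN : N ∉ v.asIdeal)
    (g : (𝓞 L)[X]) (hg : g.map (algebraMap (𝓞 L) L) = C (algebraMap (𝓞 L) L N) * G.map P)
    (hdeg : g.natDegree = G.natDegree) (hlc : g.leadingCoeff ∉ v.asIdeal)
    (hs : (g.map (Ideal.Quotient.mk v.asIdeal)).Separable)
    (hroot : ∀ r : 𝓞 L ⧸ v.asIdeal, (g.map (Ideal.Quotient.mk v.asIdeal)).eval r ≠ 0)
    (hev : Even G.natDegree) (h4 : 4 ≤ G.natDegree) (a : R)
    (ha : v.valuation L (P a) = exp (-1)) :
    Fine.{u, v, w} (algebraMap R k a) (G.map (algebraMap R k)) := by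
  classical
  have hfinres := finite_residue v
  have hmax : v.asIdeal.IsMaximal := v.isMaximal
  let _ := Ideal.Quotient.field v.asIdeal
  obtain ⟨θ, hθ, hθr⟩ := exists_residue_map v
  have hθinj : Function.Injective θ := θ.injective
  have hγ2 : (exp (-2) : ℤᵐ⁰) < 1 := by
    rw [← exp_zero, exp_lt_exp]
    omega
  have hPv : ∀ r, vv v (algebraMap L (v.adicCompletion L) (P r)) ≤ 1 := fun r => by
    rw [vv_algebraMap]
    exact hPint r
  have hψ1 : ∀ r, vv v (ψ (algebraMap R k r)) ≤ 1 := by
    intro r
    have h1 : ψ (algebraMap R k r) = (ψ (algebraMap R k r) -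
      algebraMap L (v.adicCompletion L) (P r)) + algebraMap L (v.adicCompletion L) (P r) := by ring
    rw [h1]
    exact (Valuation.map_add _ _ _).trans (max_le ((hψ r).trans hγ2.le) (hPv r))
  have hmapψ : (G.map (algebraMap R k)).map ψ = G.map (ψ.comp (algebraMap R k)) := by
    rw [Polynomial.map_map]
  have hinj : Function.Injective (ψ.comp (algebraMap R k)) := ψ.injective.comp hinjk
  obtain ⟨gB, hgB⟩ : ∃ gB : (vv v).valuationSubring[X],
      gB.map (algebraMap (vv v).valuationSubring (v.adicCompletion L)) =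
        G.map (ψ.comp (algebraMap R k)) := by
    have h1 : G.map (ψ.comp (algebraMap R k)) ∈
        Polynomial.lifts (algebraMap (vv v).valuationSubring (v.adicCompletion L)) := by
      rw [Polynomial.lifts_iff_coeff_lifts]
      intro j
      exact ⟨⟨(G.map (ψ.comp (algebraMap R k))).coeff j, by
        rw [coeff_map]
        exact hψ1 _⟩, rfl⟩
    obtain ⟨f, hf⟩ := (Polynomial.mem_lifts _).1 h1
    exact ⟨f, hf⟩
  have hcoeff : ∀ j, ((gB.coeff j : (vv v).valuationSubring) : v.adicCompletion L) =
      ψ (algebraMap R k (G.coeff j)) := by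
    intro j
    have := congrArg (fun q => q.coeff j) hgB
    simp only [coeff_map] at this
    exact this
  have hNint : ∀ r : 𝓞 L, vv v (algebraMap L (v.adicCompletion L) (algebraMap (𝓞 L) L r)) ≤ 1 := by
    intro r
    rw [vv_algebraMap]
    exact v.valuation_le_one r
  let NB : (vv v).valuationSubring :=
    ⟨algebraMap L (v.adicCompletion L) (algebraMap (𝓞 L) L N), hNint N⟩
  have hNBres : IsLocalRing.residue _ NB = θ (Ideal.Quotient.mk v.asIdeal N) := by
    apply hθr
    change vv v (algebraMap L (v.adicCompletion L) (algebraMap (𝓞 L) L N) -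
      algebraMap L (v.adicCompletion L) (algebraMap (𝓞 L) L N)) < 1
    rw [sub_self, map_zero]
    exact zero_lt_one
  have hres : ∀ j, IsLocalRing.residue _ (gB.coeff j) * θ (Ideal.Quotient.mk v.asIdeal N) =
      θ (Ideal.Quotient.mk v.asIdeal (g.coeff j)) := by
    intro j
    rw [← hNBres, ← map_mul]
    apply hθr
    have h1 : algebraMap (𝓞 L) L (g.coeff j) = algebraMap (𝓞 L) L N * P (G.coeff j) := by
      have := congrArg (fun q => q.coeff j) hg
      simpa only [coeff_map, coeff_C_mul] using this
    have h2 : ((gB.coeff j * NB : (vv v).valuationSubring) : v.adicCompletion L) -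
        algebraMap L (v.adicCompletion L) (algebraMap (𝓞 L) L (g.coeff j)) =
        algebraMap L (v.adicCompletion L) (algebraMap (𝓞 L) L N) * (ψ (algebraMap R k (G.coeff j)) -
          algebraMap L (v.adicCompletion L) (P (G.coeff j))) := by
      rw [h1, map_mul]
      change ((gB.coeff j : (vv v).valuationSubring) : v.adicCompletion L) *
        algebraMap L (v.adicCompletion L) (algebraMap (𝓞 L) L N) - _ = _
      rw [hcoeff]
      ring
    rw [h2, map_mul]
    exact mul_lt_of_le_one_of_lt (hNint N) ((hψ _).trans_lt hγ2)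
  have hpoly : gB.map (IsLocalRing.residue _) * C (θ (Ideal.Quotient.mk v.asIdeal N)) =
      (g.map (Ideal.Quotient.mk v.asIdeal)).map θ := by
    ext j
    rw [coeff_mul_C, coeff_map, coeff_map, coeff_map]
    exact hres j
  have hdegk : (G.map (algebraMap R k)).natDegree = G.natDegree :=
    natDegree_map_eq_of_injective hinjk G
  have hdegB : gB.natDegree = G.natDegree := by
    rw [← natDegree_map_eq_of_injective (f := algebraMap (vv v).valuationSubring
      (v.adicCompletion L)) Subtype.val_injective gB, hgB, natDegree_map_eq_of_injective hinj G]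
  refine fine_of_val (vv v) ψ ?_ (G.map (algebraMap R k)) gB ?_ ?_ ?_
    (by rwa [hdegk]) (by rwa [hdegk]) ?_ _ (-1) (by decide) ?_
  · have h3 : (2 : v.adicCompletion L) =
        algebraMap L (v.adicCompletion L) (algebraMap (𝓞 L) L 2) := by
      rw [map_ofNat, map_ofNat]
    rw [h3, vv_algebraMap]
    exact (HeightOneSpectrum.valuation_eq_one_iff_notMem v).2 h2
  · rw [hgB, hmapψ]
  · have h4 : gB.leadingCoeff ∉ IsLocalRing.maximalIdeal (vv v).valuationSubring := by
      intro h5
      have h6 := hres gB.natDegree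
      have h7 : IsLocalRing.residue _ (gB.coeff gB.natDegree) = 0 :=
        (IsLocalRing.residue_eq_zero_iff _).2 h5
      rw [h7, zero_mul, hdegB, ← hdeg] at h6
      have h8 := (map_eq_zero_iff _ hθinj).1 h6.symm
      rw [Ideal.Quotient.eq_zero_iff_mem] at h8
      exact hlc h8
    by_contra h5
    exact h4 ((IsLocalRing.mem_maximalIdeal _).2 h5)
  · have h5 : ((g.map (Ideal.Quotient.mk v.asIdeal)).map θ).Separable := hs.map
    rw [← hpoly] at h5
    exact h5.of_mul_left
  · intro b hb
    obtain ⟨r, hr⟩ := exists_int_close v b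
    have h5 := hθr r b hr
    have h6 : IsLocalRing.residue (vv v).valuationSubring (gB.eval b) = 0 :=
      (IsLocalRing.residue_eq_zero_iff _).2 hb
    have h7 : ((g.map (Ideal.Quotient.mk v.asIdeal)).map θ).eval
        (θ (Ideal.Quotient.mk v.asIdeal r)) = 0 := by
      rw [← hpoly, eval_mul, ← h5, eval_map, eval₂_at_apply, h6, zero_mul]
    rw [eval_map, eval₂_at_apply] at h7
    exact hroot _ ((map_eq_zero_iff _ hθinj).1 h7)
  · have h5 : ψ (algebraMap R k a) = (ψ (algebraMap R k a) -
      algebraMap L (v.adicCompletion L) (P a)) + algebraMap L (v.adicCompletion L) (P a) := by ring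
    have h6 : vv v (ψ (algebraMap R k a) - algebraMap L (v.adicCompletion L) (P a)) <
        vv v (algebraMap L (v.adicCompletion L) (P a)) := by
      rw [vv_algebraMap, ha]
      refine (hψ a).trans_lt ?_
      rw [exp_lt_exp]
      omega
    rw [h5, Valuation.map_add_eq_of_lt_right _ h6, vv_algebraMap, ha]

end Pool.Agent.W858.SG
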