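import Pool.Agent.W858.SG.Extend
import Pool.Agent.W858.SG.FineEmb

/-! # Density of the twists without sections -/

namespace Pool.Agent.W858.SG

open IsDedekindDomain NumberField WithZero Polynomial Pool.Agent.W623.SecC Pool.Agent.W858.SF

theorem lt_exp_neg_one (x : ℤᵐ⁰) (hx : x < exp (-1)) : x ≤ exp (-2) := by
  by_cases h0 : x = 0
  · rw [h0]
    exact zero_le
  · rw [← exp_log h0, exp_lt_exp] at hx
    rw [← exp_log h0, exp_le_exp]
    omega

section arith

variable {L : Type} [Field L] [NumberField L]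

theorem val_le_iff (v : HeightOneSpectrum (𝓞 L)) (y : 𝓞 L) :
    v.valuation L (algebraMap (𝓞 L) L y) ≤ exp (-2) ↔ y ∈ v.asIdeal ^ 2 := by
  rw [HeightOneSpectrum.valuation_of_algebraMap]
  exact v.intValuation_le_pow_iff_mem y 2

theorem mem_prod_iff (T : Finset (HeightOneSpectrum (𝓞 L))) (y : 𝓞 L) :
    y ∈ ∏ v ∈ T, v.asIdeal ^ 2 ↔ ∀ v ∈ T, y ∈ v.asIdeal ^ 2 := by
  rw [← IsDedekindDomain.inf_pow_eq_prod_of_prime T (fun v => v.asIdeal) (fun _ => 2)
    (fun v _ => v.prime) (fun v _ w _ hvw h => hvw (HeightOneSpectrum.ext h))]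
  simp [Submodule.mem_finsetInf]

/-- approximation of an element by integers -/
theorem exists_int_near (T : Finset (HeightOneSpectrum (𝓞 L))) (x : L)
    (hx : ∀ v ∈ T, v.valuation L x ≤ 1) :
    ∃ y : 𝓞 L, ∀ v ∈ T, v.valuation L (x - algebraMap (𝓞 L) L y) ≤ exp (-2) := by
  have h1 : ∀ v : T, ∃ r : 𝓞 L, v.1.valuation L (algebraMap (𝓞 L) L r - x) < exp (-1) := by
    intro v
    obtain ⟨r, hr⟩ := v.1.exists_valuation_sub_lt_of_integer (hx v.1 v.2)
      (Units.mk0 (exp (-1)) exp_ne_zero)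
    exact ⟨r, hr⟩
  choose r hr using h1
  obtain ⟨y, hy⟩ := IsDedekindDomain.exists_forall_sub_mem_ideal (s := T)
    (fun v => v.asIdeal) (fun _ => 2) (fun v _ => v.prime)
    (fun v _ w _ hvw h => hvw (HeightOneSpectrum.ext h)) r
  refine ⟨y, fun v hv => ?_⟩
  have h2 : x - algebraMap (𝓞 L) L y = -(algebraMap (𝓞 L) L (r ⟨v, hv⟩) - x) -
      algebraMap (𝓞 L) L (y - r ⟨v, hv⟩) := by
    rw [map_sub]
    ring
  rw [h2]
  refine (Valuation.map_sub _ _ _).trans (max_le ?_ ?_)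
  · rw [Valuation.map_neg]
    exact lt_exp_neg_one _ (hr ⟨v, hv⟩)
  · rw [val_le_iff]
    exact hy v hv

/-- an integer prime to finitely many primes has a power congruent to one -/
theorem exists_pow_one (T : Finset (HeightOneSpectrum (𝓞 L))) (M : 𝓞 L)
    (hM : ∀ v ∈ T, M ∉ v.asIdeal) :
    ∃ j : ℕ, M ^ (j + 1) - 1 ∈ ∏ v ∈ T, v.asIdeal ^ 2 := by
  set J := ∏ v ∈ T, v.asIdeal ^ 2 with hJ
  have hJ0 : J ≠ ⊥ := Finset.prod_ne_zero_iff.2 fun v _ => pow_ne_zero _ v.ne_bot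
  have hfin : Finite (𝓞 L ⧸ J) := Ideal.finiteQuotientOfFreeOfNeBot _ hJ0
  have hcop : IsCoprime (Ideal.span {M}) J := by
    rw [hJ]
    apply IsCoprime.prod_right
    intro v hv
    apply IsCoprime.pow_right
    rw [Ideal.isCoprime_iff_sup_eq, sup_comm]
    apply v.isMaximal.out.2
    refine lt_of_le_of_ne le_sup_left ?_
    intro h
    apply hM v hv
    rw [h]
    exact Ideal.mem_sup_right (Ideal.mem_span_singleton_self M)
  obtain ⟨i, hi, j, hj, hij⟩ := Ideal.isCoprime_iff_exists.1 hcop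
  obtain ⟨t, rfl⟩ := Ideal.mem_span_singleton'.1 hi
  have hu : Ideal.Quotient.mk J t * Ideal.Quotient.mk J M = 1 := by
    rw [← map_mul, ← map_one (Ideal.Quotient.mk J), Ideal.Quotient.eq]
    have : t * M - 1 = -j := by
      rw [← hij]
      ring
    rw [this]
    exact J.neg_mem hj
  have hU : IsUnit (Ideal.Quotient.mk J M) := IsUnit.of_mul_eq_one_right _ hu
  obtain ⟨u, huM⟩ := hU
  have : Finite (𝓞 L ⧸ J)ˣ := inferInstance
  have hcard : 0 < Nat.card (𝓞 L ⧸ J)ˣ := Nat.card_pos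
  refine ⟨Nat.card (𝓞 L ⧸ J)ˣ - 1, ?_⟩
  rw [Nat.sub_add_cancel hcard, ← Ideal.Quotient.eq, map_pow, ← huM, map_one]
  rw [← Units.val_pow_eq_pow_val, pow_card_eq_one', Units.val_one]

/-- a ring that generates the field contains a multiple of the integers -/
theorem exists_mult {R : Type} [CommRing R] (P : R →+* L) (β : L)
    (hβ : ∀ x : L, x ∈ IntermediateField.adjoin ℚ {β}) (r s : R) (hs : P s ≠ 0)
    (hrs : P s * β = P r) :
    ∃ M : ℤ, M ≠ 0 ∧ ∀ y : 𝓞 L, ∃ r : R, (M : L) * algebraMap (𝓞 L) L y = P r := by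
  classical
  let S : Subalgebra ℚ L :=
    { carrier := {x | ∃ n : ℤ, n ≠ 0 ∧ ∃ r : R, (n : L) * x = P r}
      mul_mem' := by
        rintro x y ⟨n, hn, r, hr⟩ ⟨n', hn', r', hr'⟩
        refine ⟨n * n', mul_ne_zero hn hn', r * r', ?_⟩
        rw [map_mul, ← hr, ← hr']
        push_cast
        ring
      add_mem' := by
        rintro x y ⟨n, hn, r, hr⟩ ⟨n', hn', r', hr'⟩
        refine ⟨n * n', mul_ne_zero hn hn', n' * r + n * r', ?_⟩
        rw [map_add, map_mul, map_mul, ← hr, ← hr', map_intCast, map_intCast]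
        push_cast
        ring
      algebraMap_mem' := by
        intro q
        refine ⟨q.den, by exact_mod_cast q.den_nz, q.num, ?_⟩
        rw [map_intCast, eq_ratCast]
        have h1 : ((q.den : ℚ) * q : ℚ) = q.num := Rat.den_mul_eq_num q
        have h2 := congrArg (fun t : ℚ => (t : L)) h1
        simp only [Rat.cast_mul, Rat.cast_natCast, Rat.cast_intCast] at h2
        push_cast
        exact h2 }
  have hinv : ∀ x ∈ S, x⁻¹ ∈ S := fun x hx =>
    S.inv_mem_of_algebraic (x := ⟨x, hx⟩) (Algebra.IsAlgebraic.isAlgebraic x)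
  have hPS : ∀ r, P r ∈ S := fun r => ⟨1, one_ne_zero, r, by simp⟩
  have hβS : β ∈ S := by
    have h1 : β = P r * (P s)⁻¹ := by
      rw [← hrs]
      field_simp
    rw [h1]
    exact S.mul_mem (hPS r) (hinv _ (hPS s))
  have hall : ∀ x : L, x ∈ S := by
    intro x
    have h1 : IntermediateField.adjoin ℚ {β} ≤ S.toIntermediateField hinv := by
      rw [IntermediateField.adjoin_simple_le_iff]
      exact hβS
    exact h1 (hβ x)
  obtain ⟨t, ht⟩ := (inferInstance : Module.Finite ℤ (𝓞 L)).fg_top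
  have hch : ∀ y : 𝓞 L, ∃ n : ℤ, n ≠ 0 ∧ ∃ r : R, (n : L) * algebraMap (𝓞 L) L y = P r :=
    fun y => hall _
  choose n hn0 q hq using hch
  refine ⟨∏ y ∈ t, n y, Finset.prod_ne_zero_iff.2 fun y _ => hn0 y, fun y => ?_⟩
  have hy : y ∈ Submodule.span ℤ (t : Set (𝓞 L)) := by
    rw [ht]
    exact Submodule.mem_top
  induction hy using Submodule.span_induction with
  | mem y hy =>
    refine ⟨((∏ z ∈ t.erase y, n z : ℤ) : R) * q y, ?_⟩
    rw [map_mul, ← hq, map_intCast, ← Finset.mul_prod_erase t n hy]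
    push_cast
    ring
  | zero => exact ⟨0, by simp⟩
  | add y z _ _ hy hz =>
    obtain ⟨r, hr⟩ := hy
    obtain ⟨r', hr'⟩ := hz
    refine ⟨r + r', ?_⟩
    rw [map_add, map_add, mul_add, hr, hr']
  | smul a y _ hy =>
    obtain ⟨r, hr⟩ := hy
    refine ⟨a * r, ?_⟩
    rw [map_mul, ← hr, map_intCast, zsmul_eq_mul, map_mul, map_intCast]
    ring

end arith

end Pool.Agent.W858.SG
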