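import Pool.Agent.W858.SG.Dens

/-! # Density of the twists without sections, II -/

namespace Pool.Agent.W858.SG

open IsDedekindDomain NumberField WithZero Polynomial Pool.Agent.W623.SecC Pool.Agent.W858.SF

universe v w

theorem density_of_point {R k : Type} [CommRing R] [Field k] [CharZero k] [Algebra R k]
    (hinjk : Function.Injective (algebraMap R k)) (f : k[X]) (d : R) (F : R[X])
    (hdF : C (algebraMap R k d) * f = F.map (algebraMap R k)) (hev : Even F.natDegree)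
    (h4 : 4 ≤ F.natDegree) {L : Type} [Field L] [NumberField L] (P : R →+* L)
    (hd : P d ≠ 0) (hlc : P F.leadingCoeff ≠ 0) (hsep : (F.map P).Separable)
    (hσ : ∃ σ' : AlgebraicClosure L ≃ₐ[L] AlgebraicClosure L,
        ∀ θ : AlgebraicClosure L, aeval θ (F.map P) = 0 → σ' θ ≠ θ)
    (hemb : AE fun v : HeightOneSpectrum (𝓞 L) => (∀ r, v.valuation L (P r) ≤ 1) ∧
      ∃ ψ : k →+* v.adicCompletion L,
        ∀ r, vv v (ψ (algebraMap R k r) - algebraMap L (v.adicCompletion L) (P r)) ≤ exp (-2))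
    (hM : ∃ M : ℤ, M ≠ 0 ∧ ∀ y : 𝓞 L, ∃ r : R, (M : L) * algebraMap (𝓞 L) L y = P r)
    (ε : ℝ) (hε : 0 < ε) :
    ∃ I : Ideal R, Finite (R ⧸ I) ∧
      (Set.ncard ((Ideal.Quotient.mk I) ''
        {a : R | ¬ Fine.{0, v, w} (algebraMap R k a) f}) : ℝ) ≤ ε * Nat.card (R ⧸ I) := by
  classical
  obtain ⟨M, hM0, hM⟩ := hM
  obtain ⟨c, hc, hcf⟩ := IsLocalization.integerNormalization_spec (nonZeroDivisors (𝓞 L)) (F.map P)
  set g := IsLocalization.integerNormalization (nonZeroDivisors (𝓞 L)) (F.map P) with hg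
  have hc0 : c ≠ 0 := nonZeroDivisors.ne_zero hc
  have hinj : Function.Injective (algebraMap (𝓞 L) L) := IsFractionRing.injective (𝓞 L) L
  have hcK : algebraMap (𝓞 L) L c ≠ 0 := by
    rw [Ne, map_eq_zero_iff _ hinj]
    exact hc0
  have hgf : g.map (algebraMap (𝓞 L) L) = C (algebraMap (𝓞 L) L c) * F.map P := by
    rw [hcf]
    ext i
    rw [coeff_smul, coeff_C_mul, Algebra.smul_def]
  have hdegP : (F.map P).natDegree = F.natDegree :=
    natDegree_map_of_leadingCoeff_ne_zero P hlc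
  have hdeg : g.natDegree = F.natDegree := by
    rw [← natDegree_map_eq_of_injective hinj g, hgf, natDegree_C_mul hcK, hdegP]
  have hgs : (g.map (algebraMap (𝓞 L) L)).Separable := by
    rw [hgf]
    exact Separable.unit_mul (isUnit_C.2 hcK.isUnit) hsep
  have hgσ : ∃ σ : AlgebraicClosure L ≃ₐ[L] AlgebraicClosure L,
      ∀ θ : AlgebraicClosure L, aeval θ (g.map (algebraMap (𝓞 L) L)) = 0 → σ θ ≠ θ := by
    obtain ⟨σ, hσ⟩ := hσ
    refine ⟨σ, fun θ hθ => hσ θ ?_⟩
    rw [hgf, map_mul, aeval_C] at hθ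
    exact (mul_eq_zero.1 hθ).resolve_left ((_root_.map_ne_zero _).2 hcK)
  obtain ⟨N1, hN1, hemb⟩ := hemb
  obtain ⟨N2, hN2, hunit⟩ := AE.unit (P d) hd
  have hMO : (M : 𝓞 L) ≠ 0 := by exact_mod_cast hM0
  obtain ⟨T, hT, hTε⟩ := Pool.Agent.W723.SecC.partD1 L g (c * N1 * N2 * (M : 𝓞 L))
    (mul_ne_zero (mul_ne_zero (mul_ne_zero hc0 hN1) hN2) hMO) hgs hgσ ε hε
  have hTc : ∀ v ∈ T, c ∉ v.asIdeal := fun v hv h => (hT v hv).1
    (Ideal.mul_mem_right _ _ (Ideal.mul_mem_right _ _ (Ideal.mul_mem_right _ _ h)))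
  have hTN1 : ∀ v ∈ T, N1 ∉ v.asIdeal := fun v hv h => (hT v hv).1
    (Ideal.mul_mem_right _ _ (Ideal.mul_mem_right _ _ (Ideal.mul_mem_left _ _ h)))
  have hTN2 : ∀ v ∈ T, N2 ∉ v.asIdeal := fun v hv h => (hT v hv).1
    (Ideal.mul_mem_right _ _ (Ideal.mul_mem_left _ _ h))
  have hTM : ∀ v ∈ T, (M : 𝓞 L) ∉ v.asIdeal := fun v hv h => (hT v hv).1
    (Ideal.mul_mem_left _ _ h)
  have hPint : ∀ v ∈ T, ∀ r, v.valuation L (P r) ≤ 1 := fun v hv => (hemb v (hTN1 v hv)).1
  -- the twists with valuation one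
  have hfine : ∀ v ∈ T, ∀ a : R, v.valuation L (P a) = exp (-1) →
      Fine.{0, v, w} (algebraMap R k a) f := by
    intro v hv a ha
    obtain ⟨-, h2v, hlcv, hsv, hrv⟩ := hT v hv
    obtain ⟨hint, ψ, hψ⟩ := hemb v (hTN1 v hv)
    have h1 := fine_emb.{0, v, w} v hinjk P ψ hint hψ h2v F c (hTc v hv) g hgf hdeg hlcv hsv hrv
      hev h4 (d * a) (by
        rw [map_mul, map_mul, ha]
        have h3 : v.valuation L (P d) = 1 := hunit v (hTN2 v hv)
        rw [h3, one_mul])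
    rw [map_mul, ← hdF] at h1
    exact fine_scale f _ _ h1
  set E : Set R := {a : R | ¬ Fine.{0, v, w} (algebraMap R k a) f} with hE
  set J := ∏ v ∈ T, v.asIdeal ^ 2 with hJ
  have hJ0 : J ≠ ⊥ := Finset.prod_ne_zero_iff.2 fun v _ => pow_ne_zero _ v.ne_bot
  have hfinJ : Finite (𝓞 L ⧸ J) := Ideal.finiteQuotientOfFreeOfNeBot _ hJ0
  -- the ideal
  let I : Ideal R :=
    { carrier := {r | ∀ v ∈ T, v.valuation L (P r) ≤ exp (-2)}
      add_mem' := by
        intro r s hr hs v hv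
        rw [map_add]
        exact (Valuation.map_add _ _ _).trans (max_le (hr v hv) (hs v hv))
      zero_mem' := by
        intro v hv
        rw [map_zero, map_zero]
        exact zero_le
      smul_mem' := by
        intro r s hs v hv
        rw [smul_eq_mul, map_mul, map_mul, mul_comm]
        exact mul_le_of_le_of_le_one (hs v hv) (hPint v hv r) }
  have hImem : ∀ r, r ∈ I ↔ ∀ v ∈ T, v.valuation L (P r) ≤ exp (-2) := fun r => Iff.rfl
  have hcl : ∀ r r' : R, ∀ y y' : 𝓞 L,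
      (∀ v ∈ T, v.valuation L (P r - algebraMap (𝓞 L) L y) ≤ exp (-2)) →
      (∀ v ∈ T, v.valuation L (P r' - algebraMap (𝓞 L) L y') ≤ exp (-2)) →
      (r - r' ∈ I ↔ y - y' ∈ J) := by
    intro r r' y y' h1 h2
    rw [hImem, hJ, mem_prod_iff]
    refine forall₂_congr fun v hv => ?_
    rw [← val_le_iff]
    constructor
    · intro h3
      have h5 : algebraMap (𝓞 L) L (y - y') = P (r - r') - ((P r - algebraMap (𝓞 L) L y) -
        (P r' - algebraMap (𝓞 L) L y')) := by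
        rw [map_sub, map_sub]
        ring
      rw [h5]
      exact (Valuation.map_sub _ _ _).trans (max_le h3
        ((Valuation.map_sub _ _ _).trans (max_le (h1 v hv) (h2 v hv))))
    · intro h3
      have h5 : P (r - r') = algebraMap (𝓞 L) L (y - y') + ((P r - algebraMap (𝓞 L) L y) -
        (P r' - algebraMap (𝓞 L) L y')) := by
        rw [map_sub, map_sub]
        ring
      rw [h5]
      exact (Valuation.map_add _ _ _).trans (max_le h3
        ((Valuation.map_sub _ _ _).trans (max_le (h1 v hv) (h2 v hv))))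
  have hex : ∀ r : R, ∃ y : 𝓞 L,
      ∀ v ∈ T, v.valuation L (P r - algebraMap (𝓞 L) L y) ≤ exp (-2) := fun r =>
    exists_int_near T (P r) fun v hv => hPint v hv r
  choose Y hY using hex
  have hsurj : ∀ y : 𝓞 L, ∃ r : R,
      ∀ v ∈ T, v.valuation L (P r - algebraMap (𝓞 L) L y) ≤ exp (-2) := by
    intro y
    obtain ⟨r0, hr0⟩ := hM y
    obtain ⟨j, hj⟩ := exists_pow_one T (M : 𝓞 L) hTM
    refine ⟨(M : R) ^ j * r0, fun v hv => ?_⟩
    have h1 : P ((M : R) ^ j * r0) - algebraMap (𝓞 L) L y =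
        algebraMap (𝓞 L) L (((M : 𝓞 L) ^ (j + 1) - 1) * y) := by
      rw [map_mul, ← hr0, map_pow, map_intCast]
      simp only [map_mul, map_sub, map_pow, map_intCast, map_one]
      ring
    rw [h1, val_le_iff]
    exact Ideal.mul_mem_right _ _ ((mem_prod_iff T _).1 hj v hv)
  let b : R ⧸ I → 𝓞 L ⧸ J := fun q => Ideal.Quotient.mk J (Y (Quotient.out q))
  have hout : ∀ q : R ⧸ I, Ideal.Quotient.mk I (Quotient.out q) = q := fun q =>
    Quotient.out_eq q
  have hbmk : ∀ (r : R) (y : 𝓞 L),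
      (∀ v ∈ T, v.valuation L (P r - algebraMap (𝓞 L) L y) ≤ exp (-2)) →
      b (Ideal.Quotient.mk I r) = Ideal.Quotient.mk J y := by
    intro r y hry
    change Ideal.Quotient.mk J _ = _
    rw [Ideal.Quotient.eq]
    refine (hcl _ r _ y (hY _) hry).1 ?_
    rw [← Ideal.Quotient.eq]
    exact hout _
  have hbinj : Function.Injective b := by
    intro q q' hqq
    have h1 := Ideal.Quotient.eq.1 hqq
    rw [← hcl (Quotient.out q) (Quotient.out q') _ _ (hY _) (hY _), ← Ideal.Quotient.eq, hout,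
      hout] at h1
    exact h1
  have hbsurj : Function.Surjective b := by
    intro z
    obtain ⟨y, rfl⟩ := Ideal.Quotient.mk_surjective z
    obtain ⟨r, hr⟩ := hsurj y
    exact ⟨Ideal.Quotient.mk I r, hbmk r y hr⟩
  have hfinI : Finite (R ⧸ I) := Finite.of_injective b hbinj
  have hcard : Nat.card (R ⧸ I) = Nat.card (𝓞 L ⧸ J) :=
    Nat.card_congr (Equiv.ofBijective b ⟨hbinj, hbsurj⟩)
  refine ⟨I, hfinI, ?_⟩
  have hD2 := Pool.Agent.W417.SecC.D2.partD2 L T
    {y : 𝓞 L | ∃ r ∈ E, ∀ v ∈ T, v.valuation L (P r - algebraMap (𝓞 L) L y) ≤ exp (-2)} (by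
      rintro y ⟨r, hrE, hr⟩ v hv hyv
      by_contra hy2
      apply hrE
      apply hfine v hv r
      have h1 : v.valuation L (algebraMap (𝓞 L) L y) = exp (-1) := by
        apply le_antisymm
        · rw [HeightOneSpectrum.valuation_of_algebraMap]
          exact (v.intValuation_le_pow_iff_mem y 1).2 (by rwa [pow_one])
        · by_contra h2
          rw [not_le] at h2
          exact hy2 ((val_le_iff v y).1 (lt_exp_neg_one _ h2))
      have h2 : P r = (P r - algebraMap (𝓞 L) L y) + algebraMap (𝓞 L) L y := by ring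
      rw [h2, Valuation.map_add_eq_of_lt_right _ (by
        rw [h1]
        refine (hr v hv).trans_lt ?_
        rw [exp_lt_exp]
        omega), h1])
  have hle : Set.ncard ((Ideal.Quotient.mk I) '' E) ≤ Set.ncard ((Ideal.Quotient.mk J) ''
      {y : 𝓞 L | ∃ r ∈ E, ∀ v ∈ T, v.valuation L (P r - algebraMap (𝓞 L) L y) ≤ exp (-2)}) := by
    refine Set.ncard_le_ncard_of_injOn b ?_ hbinj.injOn (Set.toFinite _)
    rintro _ ⟨r, hr, rfl⟩
    exact ⟨Y r, ⟨r, hr, hY r⟩, (hbmk r _ (hY r)).symm⟩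
  rw [hcard]
  calc (Set.ncard ((Ideal.Quotient.mk I) '' E) : ℝ) ≤ _ := by exact_mod_cast hle
    _ ≤ _ := hD2
    _ ≤ ε * Nat.card (𝓞 L ⧸ J) := mul_le_mul_of_nonneg_right hTε.le (Nat.cast_nonneg _)

end Pool.Agent.W858.SG
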