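import Pool.Agent.W858.SG.Extend

/-! # Embeddings of finitely generated fields into completions of number fields, II -/

namespace Pool.Agent.W858.SG

open IsDedekindDomain NumberField WithZero Polynomial Pool.Agent.W858.SF

theorem exists_emb {m : ℕ} {L : Type} [Field L] [NumberField L] {Q k : Type} [Field Q]
    [Algebra (MvPolynomial (Fin m) ℚ) Q] [IsFractionRing (MvPolynomial (Fin m) ℚ) Q] [Field k]
    [Algebra Q k] [Algebra (MvPolynomial (Fin m) ℚ) k] [IsScalarTower (MvPolynomial (Fin m) ℚ) Q k]
    {R : Type} [CommRing R] [Algebra R k] (α : k) (hα : IsIntegral (MvPolynomial (Fin m) ℚ) α)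
    (hgen : IntermediateField.adjoin Q {α} = ⊤) (P : R →+* L) (G : Finset R)
    (hG : Algebra.adjoin ℤ (G : Set R) = ⊤) (D : R → MvPolynomial (Fin m) ℚ)
    (N : R → (MvPolynomial (Fin m) ℚ)[X])
    (hDN : ∀ r ∈ G, algebraMap _ k (D r) * algebraMap R k r = aeval α (N r))
    (c : Fin m → L) (β : L)
    (hβ : ((minpoly (MvPolynomial (Fin m) ℚ) α).map (spL c)).eval β = 0)
    (hβ' : ((derivative (minpoly (MvPolynomial (Fin m) ℚ) α)).map (spL c)).eval β ≠ 0)
    (hDP : ∀ r ∈ G, spL c (D r) ≠ 0 ∧ spL c (D r) * P r = ((N r).map (spL c)).eval β) :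
    AE fun v : HeightOneSpectrum (𝓞 L) => (∀ r, v.valuation L (P r) ≤ 1) ∧
      ∃ ψ : k →+* v.adicCompletion L,
        ∀ r, vv v (ψ (algebraMap R k r) - algebraMap L (v.adicCompletion L) (P r)) ≤ exp (-2) := by
  classical
  set h := minpoly (MvPolynomial (Fin m) ℚ) α with hh
  have e1 := AE.poly (L := L) h
  have e2 := AE.ball G fun r _ => AE.mv (L := L) (D r)
  have e3 := AE.ball G fun r _ => AE.poly (L := L) (N r)
  have e4 := AE.ball Finset.univ fun i _ => AE.int (c i)
  have e5 := AE.int β
  have e6 := AE.unit _ hβ'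
  have e7 := AE.ball G fun r hr => AE.unit _ (hDP r hr).1
  refine (((e1.and e2).and e3).and ((e4.and e5).and (e6.and e7))).mono ?_
  rintro v ⟨⟨⟨h1, h2⟩, h3⟩, ⟨h4, h5⟩, h6, h7⟩
  obtain ⟨π, hπ⟩ := v.valuation_exists_uniformizer L
  have hπ0 : π ≠ 0 := by
    rintro rfl
    rw [map_zero] at hπ
    exact exp_ne_zero hπ.symm
  have hπ2 : v.valuation L (π ^ 2) = exp (-2) := by
    rw [map_pow, hπ, ← exp_nsmul]
    rfl
  have hγ2 : (exp (-2) : ℤᵐ⁰) < 1 := by
    rw [← exp_zero, exp_lt_exp]
    omega
  have hγ1 : (exp (-2) : ℤᵐ⁰) ≤ 1 := hγ2.le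
  obtain ⟨τ, hτ, hτc⟩ := exists_algInd_near v c (π ^ 2) (pow_ne_zero 2 hπ0)
  rw [hπ2] at hτc
  have hc1 : ∀ i, v.valuation L (c i) ≤ 1 := fun i => h4 i (Finset.mem_univ i)
  have hinj := sp_injective (K := ℚ) v τ hτ
  have hspnear : ∀ p : MvPolynomial (Fin m) ℚ,
      (∀ s, v.valuation L (algebraMap ℚ L (p.coeff s)) ≤ 1) →
      vv v (sp v τ p - algebraMap L (v.adicCompletion L) (spL c p)) ≤ exp (-2) ∧
      vv v (sp v τ p) ≤ 1 := fun p hp => sp_near v p hp c hc1 τ _ hγ1 hτc
  have hβ1 : vv v (algebraMap L (v.adicCompletion L) β) ≤ 1 := by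
    rw [vv_algebraMap]
    exact h5
  -- values of polynomials
  have hpoly : ∀ p : (MvPolynomial (Fin m) ℚ)[X],
      (∀ j s, v.valuation L (algebraMap ℚ L ((p.coeff j).coeff s)) ≤ 1) →
      ∀ y, vv v y ≤ 1 → vv v (y - algebraMap L (v.adicCompletion L) β) ≤ exp (-2) →
      vv v ((p.map (sp v τ)).eval y - algebraMap L (v.adicCompletion L)
        ((p.map (spL c)).eval β)) ≤ exp (-2) ∧ vv v ((p.map (sp v τ)).eval y) ≤ 1 := by
    intro p hp y hy hyβ
    have h8 := poly_near (vv v) (p.map (sp v τ))
      ((p.map (spL c)).map (algebraMap L (v.adicCompletion L))) (fun i => by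
        rw [coeff_map]
        exact (hspnear _ (hp i)).2) y _ hy hβ1 (exp (-2)) (fun i => by
        rw [coeff_map, coeff_map, coeff_map]
        exact (hspnear _ (hp i)).1) hyβ
    rw [eval_map_algebraMap (R := L), aeval_algebraMap_apply] at h8
    simpa using h8
  have hdcoeff : ∀ j s, v.valuation L (algebraMap ℚ L (((derivative h).coeff j).coeff s)) ≤ 1 := by
    intro j s
    rw [coeff_derivative]
    have h8 : (h.coeff (j + 1) * ((j : MvPolynomial (Fin m) ℚ) + 1)).coeff s =
        (h.coeff (j + 1)).coeff s * ((j : ℚ) + 1) := by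
      have h9 : ((j : MvPolynomial (Fin m) ℚ) + 1) = MvPolynomial.C ((j : ℚ) + 1) := by simp
      rw [h9, mul_comm, MvPolynomial.coeff_C_mul, mul_comm]
    rw [h8, map_mul, map_mul]
    refine mul_le_one' (h1 _ _) ?_
    have h9 : algebraMap ℚ L ((j : ℚ) + 1) = algebraMap (𝓞 L) L ((j : 𝓞 L) + 1) := by simp
    rw [h9]
    exact v.valuation_le_one _
  have hβh := hpoly h h1 (algebraMap L (v.adicCompletion L) β) hβ1 (by
    rw [sub_self, map_zero]
    exact zero_le)
  have hβd := hpoly (derivative h) hdcoeff (algebraMap L (v.adicCompletion L) β) hβ1 (by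
    rw [sub_self, map_zero]
    exact zero_le)
  rw [hβ, map_zero, sub_zero] at hβh
  obtain ⟨y, hy1, hy2⟩ := newton v (h.map (sp v τ)) (fun i => by
    rw [coeff_map]
    exact (hspnear _ (h1 i)).2) (algebraMap L (v.adicCompletion L) β) hβ1
    (algebraMap L (v.adicCompletion L) (π ^ 2)) (by
      rw [vv_algebraMap, hπ2]
      exact hγ2) (by
      rw [vv_algebraMap, hπ2]
      exact hβh.1) (by
      rw [derivative_map]
      have h8 : ((derivative h).map (sp v τ)).eval (algebraMap L (v.adicCompletion L) β) =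
        (((derivative h).map (sp v τ)).eval (algebraMap L (v.adicCompletion L) β) -
        algebraMap L (v.adicCompletion L) (((derivative h).map (spL c)).eval β)) +
        algebraMap L (v.adicCompletion L) (((derivative h).map (spL c)).eval β) := by ring
      have h9 : vv v (algebraMap L (v.adicCompletion L)
          (((derivative h).map (spL c)).eval β)) = 1 := by
        rw [vv_algebraMap]
        exact h6
      rw [h8, Valuation.map_add_eq_of_lt_right _ (by
        rw [h9]
        exact hβd.1.trans_lt hγ2), h9])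
  rw [vv_algebraMap, hπ2] at hy1
  have hy3 : vv v y ≤ 1 := by
    have h8 : y = (y - algebraMap L (v.adicCompletion L) β) +
      algebraMap L (v.adicCompletion L) β := by ring
    rw [h8]
    exact (Valuation.map_add _ _ _).trans (max_le (hy1.trans hγ1) hβ1)
  obtain ⟨ψ, hψ1, hψ2⟩ := extend (Q := Q) α hα hgen (sp v τ) hinj y hy2
  have hψaeval : ∀ p : (MvPolynomial (Fin m) ℚ)[X], ψ (aeval α p) = (p.map (sp v τ)).eval y := by
    intro p
    rw [aeval_def, hom_eval₂, eval_map, hψ2]
    congr 1
    exact RingHom.ext hψ1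
  have hgenG : ∀ r ∈ G, vv v (ψ (algebraMap R k r) -
      algebraMap L (v.adicCompletion L) (P r)) ≤ exp (-2) ∧
      vv v (algebraMap L (v.adicCompletion L) (P r)) ≤ 1 := by
    intro r hr
    have h8 := hpoly (N r) (h3 r hr) y hy3 hy1
    have h9 : vv v (algebraMap L (v.adicCompletion L) (((N r).map (spL c)).eval β)) ≤ 1 := by
      have h10 : algebraMap L (v.adicCompletion L) (((N r).map (spL c)).eval β) =
        ((N r).map (sp v τ)).eval y - (((N r).map (sp v τ)).eval y -
          algebraMap L (v.adicCompletion L) (((N r).map (spL c)).eval β)) := by ring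
      rw [h10]
      exact (Valuation.map_sub _ _ _).trans (max_le h8.2 (h8.1.trans hγ1))
    refine div_near (vv v) (((N r).map (sp v τ)).eval y)
      (algebraMap L (v.adicCompletion L) (((N r).map (spL c)).eval β)) (sp v τ (D r))
      (algebraMap L (v.adicCompletion L) (spL c (D r))) _ _ ?_ ?_ ?_ h9 _ hγ2
      (hspnear _ (h2 r hr)).1 h8.1
    · rw [← hψaeval, ← hDN r hr, map_mul, hψ1]
    · rw [← map_mul, (hDP r hr).2]
    · rw [vv_algebraMap]
      exact h7 r hr
  let S : Subring R :=
    { carrier := {r | vv v (ψ (algebraMap R k r) -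
        algebraMap L (v.adicCompletion L) (P r)) ≤ exp (-2) ∧
        vv v (algebraMap L (v.adicCompletion L) (P r)) ≤ 1}
      mul_mem' := by
        rintro r s ⟨hr1, hr2⟩ ⟨hs1, hs2⟩
        refine ⟨?_, ?_⟩
        · rw [map_mul, map_mul, map_mul, map_mul]
          refine mul_near (vv v) _ _ _ _ ?_ hs2 _ hr1 hs1
          have h8 : ψ (algebraMap R k r) = (ψ (algebraMap R k r) -
            algebraMap L (v.adicCompletion L) (P r)) +
            algebraMap L (v.adicCompletion L) (P r) := by ring
          rw [h8]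
          exact (Valuation.map_add _ _ _).trans (max_le (hr1.trans hγ1) hr2)
        · rw [map_mul, map_mul, map_mul]
          exact mul_le_one' hr2 hs2
      one_mem' := by
        refine ⟨?_, ?_⟩
        · simp
        · simp
      add_mem' := by
        rintro r s ⟨hr1, hr2⟩ ⟨hs1, hs2⟩
        refine ⟨?_, ?_⟩
        · have h8 : ψ (algebraMap R k (r + s)) - algebraMap L (v.adicCompletion L) (P (r + s)) =
            (ψ (algebraMap R k r) - algebraMap L (v.adicCompletion L) (P r)) +
            (ψ (algebraMap R k s) - algebraMap L (v.adicCompletion L) (P s)) := by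
            simp only [map_add]
            ring
          rw [h8]
          exact (Valuation.map_add _ _ _).trans (max_le hr1 hs1)
        · rw [map_add, map_add]
          exact (Valuation.map_add _ _ _).trans (max_le hr2 hs2)
      zero_mem' := by
        refine ⟨?_, ?_⟩
        · simp
        · simp
      neg_mem' := by
        rintro r ⟨hr1, hr2⟩
        refine ⟨?_, ?_⟩
        · have h8 : ψ (algebraMap R k (-r)) - algebraMap L (v.adicCompletion L) (P (-r)) =
            -(ψ (algebraMap R k r) - algebraMap L (v.adicCompletion L) (P r)) := by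
            simp only [map_neg]
            ring
          rw [h8, Valuation.map_neg]
          exact hr1
        · rw [map_neg, map_neg, Valuation.map_neg]
          exact hr2 }
  have hS : ∀ r : R, r ∈ S := by
    have h8 : Algebra.adjoin ℤ (G : Set R) ≤ subalgebraOfSubring S := by
      rw [Algebra.adjoin_le_iff]
      intro r hr
      exact hgenG r hr
    intro r
    have h9 : r ∈ Algebra.adjoin ℤ (G : Set R) := by
      rw [hG]
      exact Algebra.mem_top
    exact h8 h9
  refine ⟨fun r => ?_, ψ, fun r => (hS r).1⟩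
  have h8 := (hS r).2
  rwa [vv_algebraMap] at h8

end Pool.Agent.W858.SG
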