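import Pool.Agent.W858.SG.Hensel

/-! # Embeddings of finitely generated fields into completions of number fields -/

namespace Pool.Agent.W858.SG

open IsDedekindDomain NumberField WithZero Polynomial Pool.Agent.W858.SF

section ae

variable {L : Type} [Field L] [NumberField L]

/-- for almost all primes -/
def AE (p : HeightOneSpectrum (𝓞 L) → Prop) : Prop :=
  ∃ N : 𝓞 L, N ≠ 0 ∧ ∀ v : HeightOneSpectrum (𝓞 L), N ∉ v.asIdeal → p v

theorem AE.mono {p q : HeightOneSpectrum (𝓞 L) → Prop} (h : AE p) (hpq : ∀ v, p v → q v) :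
    AE q := by
  obtain ⟨N, hN, h⟩ := h
  exact ⟨N, hN, fun v hv => hpq v (h v hv)⟩

theorem AE.and {p q : HeightOneSpectrum (𝓞 L) → Prop} (hp : AE p) (hq : AE q) :
    AE fun v => p v ∧ q v := by
  obtain ⟨N, hN, h⟩ := hp
  obtain ⟨N', hN', h'⟩ := hq
  refine ⟨N * N', mul_ne_zero hN hN', fun v hv => ⟨h v ?_, h' v ?_⟩⟩
  · intro h1
    exact hv (Ideal.mul_mem_right _ _ h1)
  · intro h1
    exact hv (Ideal.mul_mem_left _ _ h1)

theorem AE.of_forall {p : HeightOneSpectrum (𝓞 L) → Prop} (h : ∀ v, p v) : AE p :=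
  ⟨1, one_ne_zero, fun v _ => h v⟩

theorem AE.ball {ι : Type*} (s : Finset ι) {p : ι → HeightOneSpectrum (𝓞 L) → Prop}
    (h : ∀ i ∈ s, AE (p i)) : AE fun v => ∀ i ∈ s, p i v := by
  classical
  induction s using Finset.induction_on with
  | empty => exact AE.of_forall fun v i hi => absurd hi (Finset.notMem_empty i)
  | insert j s hj ih =>
    refine ((h j (Finset.mem_insert_self j s)).and
      (ih fun i hi => h i (Finset.mem_insert_of_mem hi))).mono ?_
    rintro v ⟨h1, h2⟩ i hi
    rcases Finset.mem_insert.1 hi with rfl | hi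
    · exact h1
    · exact h2 i hi

theorem AE.int (x : L) : AE fun v : HeightOneSpectrum (𝓞 L) => v.valuation L x ≤ 1 := by
  obtain ⟨a, b, hb, hx⟩ := IsFractionRing.div_surjective (A := 𝓞 L) x
  have hb0 : b ≠ 0 := nonZeroDivisors.ne_zero hb
  refine ⟨b, hb0, fun v hv => ?_⟩
  change v.valuation L x ≤ 1
  rw [← hx, map_div₀, (HeightOneSpectrum.valuation_eq_one_iff_notMem v).2 hv, div_one]
  exact v.valuation_le_one a

theorem AE.unit (x : L) (hx : x ≠ 0) : AE fun v : HeightOneSpectrum (𝓞 L) => v.valuation L x = 1 := by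
  refine ((AE.int x).and (AE.int x⁻¹)).mono ?_
  rintro v ⟨h1, h2⟩
  refine le_antisymm h1 ?_
  rw [map_inv₀] at h2
  have h3 : v.valuation L x ≠ 0 := (_root_.map_ne_zero _).2 hx
  exact (inv_le_one₀ (zero_lt_iff.2 h3)).1 h2

theorem AE.mv {σ : Type*} (p : MvPolynomial σ ℚ) :
    AE fun v : HeightOneSpectrum (𝓞 L) => ∀ s, v.valuation L (algebraMap ℚ L (p.coeff s)) ≤ 1 := by
  classical
  refine (AE.ball p.support fun s _ => AE.int (algebraMap ℚ L (p.coeff s))).mono ?_
  intro v h s
  by_cases hs : s ∈ p.support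
  · exact h s hs
  · rw [MvPolynomial.notMem_support_iff.1 hs, map_zero, map_zero]
    exact zero_le_one

theorem AE.poly {σ : Type*} (p : (MvPolynomial σ ℚ)[X]) :
    AE fun v : HeightOneSpectrum (𝓞 L) => ∀ j s, v.valuation L (algebraMap ℚ L ((p.coeff j).coeff s)) ≤ 1 := by
  classical
  refine (AE.ball p.support fun j _ => AE.mv (L := L) (p.coeff j)).mono ?_
  intro v h j s
  by_cases hj : j ∈ p.support
  · exact h j hj s
  · rw [notMem_support_iff.1 hj, MvPolynomial.coeff_zero, map_zero, map_zero]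
    exact zero_le_one

end ae

section extend

theorem extend {A Q k E : Type*} [CommRing A] [IsDomain A] [IsIntegrallyClosed A] [Field Q]
    [Algebra A Q] [IsFractionRing A Q] [Field k] [Algebra Q k] [Algebra A k] [IsScalarTower A Q k]
    (α : k) (hα : IsIntegral A α) (hgen : IntermediateField.adjoin Q {α} = ⊤) [Field E]
    (φ : A →+* E) (hφ : Function.Injective φ) (y : E)
    (hy : ((minpoly A α).map φ).eval y = 0) :
    ∃ ψ : k →+* E, (∀ p, ψ (algebraMap A k p) = φ p) ∧ ψ α = y := by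
  let ψ0 : Q →+* E := IsFractionRing.lift hφ
  have hψ0 : ∀ p, ψ0 (algebraMap A Q p) = φ p := fun p => IsFractionRing.lift_algebraMap hφ p
  let _ : Algebra Q E := ψ0.toAlgebra
  have hαQ : IsIntegral Q α := hα.tower_top
  have hadj : Algebra.adjoin Q {α} = ⊤ := by
    have h1 := IntermediateField.adjoin_simple_toSubalgebra_of_isAlgebraic hαQ.isAlgebraic
    rw [← h1, hgen]
    rfl
  let pb : PowerBasis Q k := PowerBasis.ofAdjoinEqTop hαQ hadj
  have hpb : pb.gen = α := PowerBasis.ofAdjoinEqTop_gen hαQ hadj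
  have hmin := minpoly.isIntegrallyClosed_eq_field_fractions' (R := A) Q hα
  have hroot : aeval y (minpoly Q pb.gen) = 0 := by
    rw [hpb, hmin, aeval_def, eval₂_map]
    have h1 : (algebraMap Q E).comp (algebraMap A Q) = φ := RingHom.ext hψ0
    rw [h1, ← eval_map]
    exact hy
  refine ⟨(pb.lift y hroot).toRingHom, ?_, ?_⟩
  · intro p
    rw [IsScalarTower.algebraMap_apply A Q k]
    change (pb.lift y hroot) (algebraMap Q k (algebraMap A Q p)) = _
    rw [AlgHom.commutes]
    exact hψ0 p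
  · change (pb.lift y hroot) α = y
    have := pb.lift_gen y hroot
    rwa [hpb] at this

end extend

section near

variable {E : Type*} [Field E] (V : Valuation E ℤᵐ⁰)

theorem poly_near (p q : E[X]) (hp : ∀ i, V (p.coeff i) ≤ 1) (x y : E)
    (hx : V x ≤ 1) (hy : V y ≤ 1) (γ : ℤᵐ⁰) (hpq : ∀ i, V (p.coeff i - q.coeff i) ≤ γ)
    (hxy : V (x - y) ≤ γ) : V (p.eval x - q.eval y) ≤ γ ∧ V (p.eval x) ≤ 1 := by
  have h1 : p.eval x = ∑ i ∈ Finset.range (max p.natDegree q.natDegree + 1), p.coeff i * x ^ i :=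
    eval_eq_sum_range' (by omega) x
  have h2 : q.eval y = ∑ i ∈ Finset.range (max p.natDegree q.natDegree + 1), q.coeff i * y ^ i :=
    eval_eq_sum_range' (by omega) y
  constructor
  · rw [h1, h2, ← Finset.sum_sub_distrib]
    refine Valuation.map_sum_le _ fun i _ => ?_
    refine mul_near V _ _ _ _ (hp i) ?_ γ (hpq i) (pow_near V _ _ hx hy γ hxy i)
    rw [map_pow]
    exact pow_le_one' hy i
  · rw [h1]
    refine Valuation.map_sum_le _ fun i _ => ?_
    rw [map_mul, map_pow]
    exact mul_le_one' (hp i) (pow_le_one' hx i)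

theorem div_near (n n' d d' r r' : E) (hr : d * r = n) (hr' : d' * r' = n') (hd' : V d' = 1)
    (hn : V n' ≤ 1) (γ : ℤᵐ⁰) (hγ : γ < 1) (hdd : V (d - d') ≤ γ) (hnn : V (n - n') ≤ γ) :
    V (r - r') ≤ γ ∧ V r' ≤ 1 := by
  have hd : V d = 1 := by
    have h1 : d = (d - d') + d' := by ring
    rw [h1, Valuation.map_add_eq_of_lt_right _ (by rw [hd']; exact hdd.trans_lt hγ), hd']
  have hd0 : d ≠ 0 := by
    rintro rfl
    rw [map_zero] at hd
    exact zero_ne_one hd
  have hd0' : d' ≠ 0 := by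
    rintro rfl
    rw [map_zero] at hd'
    exact zero_ne_one hd'
  have hr'1 : V r' ≤ 1 := by
    have h1 : V (d' * r') ≤ 1 := by rw [hr']; exact hn
    rwa [map_mul, hd', one_mul] at h1
  refine ⟨?_, hr'1⟩
  have h1 : d * (r - r') = (n - n') - (d - d') * r' := by
    rw [mul_sub, hr, ← hr']
    ring
  have h2 : V (d * (r - r')) ≤ γ := by
    rw [h1]
    refine (Valuation.map_sub _ _ _).trans (max_le hnn ?_)
    rw [map_mul]
    exact mul_le_of_le_of_le_one hdd hr'1
  rwa [map_mul, hd, one_mul] at h2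

end near

end Pool.Agent.W858.SG
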