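import Pool.Agent.W858.SF.Near

/-! # Newton iteration in the completion of a number field -/

namespace Pool.Agent.W858.SG

open IsDedekindDomain NumberField WithZero Polynomial Pool.Agent.W858.SF

universe u

section

variable {E : Type*} [Field E] (V : Valuation E ℤᵐ⁰)

theorem pow_near (x y : E) (hx : V x ≤ 1) (hy : V y ≤ 1) (γ : ℤᵐ⁰) (h : V (x - y) ≤ γ) (n : ℕ) :
    V (x ^ n - y ^ n) ≤ γ := by
  induction n with
  | zero => simp
  | succ n ih =>
    have h1 : x ^ (n + 1) - y ^ (n + 1) = (x ^ n - y ^ n) * x + y ^ n * (x - y) := by ring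
    rw [h1]
    refine (Valuation.map_add _ _ _).trans (max_le ?_ ?_)
    · rw [map_mul]
      exact mul_le_of_le_of_le_one ih hx
    · rw [map_mul, map_pow, mul_comm]
      exact mul_le_of_le_of_le_one h (pow_le_one' hy n)

theorem mul_near (x x' y y' : E) (hx : V x ≤ 1) (hy' : V y' ≤ 1) (γ : ℤᵐ⁰) (h : V (x - x') ≤ γ)
    (h' : V (y - y') ≤ γ) : V (x * y - x' * y') ≤ γ := by
  have h1 : x * y - x' * y' = (x - x') * y' + (y - y') * x := by ring
  rw [h1]
  refine (Valuation.map_add _ _ _).trans (max_le ?_ ?_)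
  · rw [map_mul]
    exact mul_le_of_le_of_le_one h hy'
  · rw [map_mul]
    exact mul_le_of_le_of_le_one h' hx

theorem diff_bound (h : E[X]) (hh : ∀ i, V (h.coeff i) ≤ 1) (b y z : E) (hb : V b ≤ 1)
    (hy : V y ≤ 1) (hz : V z ≤ 1) (γ : ℤᵐ⁰) (hyb : V (y - b) ≤ γ) (hzb : V (z - b) ≤ γ) :
    V (h.eval y - h.eval z - h.derivative.eval b * (y - z)) ≤ γ * V (y - z) := by
  have key : ∀ n : ℕ, V (y ^ n - z ^ n - (n : E) * b ^ (n - 1) * (y - z)) ≤ γ * V (y - z) := by
    intro n
    have h1 : y ^ n - z ^ n - (n : E) * b ^ (n - 1) * (y - z) =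
        (∑ i ∈ Finset.range n, (y ^ i * z ^ (n - 1 - i) - b ^ i * b ^ (n - 1 - i))) * (y - z) := by
      rw [Finset.sum_sub_distrib, sub_mul, ← geom_sum₂_mul]
      congr 2
      rw [Finset.sum_congr rfl (g := fun _ => b ^ (n - 1))]
      · simp
      · intro i hi
        rw [← pow_add]
        congr 1
        have := Finset.mem_range.1 hi
        omega
    rw [h1, map_mul]
    refine mul_le_mul_left ?_ _
    refine Valuation.map_sum_le _ fun i _ => ?_
    refine mul_near V _ _ _ _ ?_ ?_ γ (pow_near V _ _ hy hb γ hyb i) (pow_near V _ _ hz hb γ hzb _)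
    · rw [map_pow]
      exact pow_le_one' hy i
    · rw [map_pow]
      exact pow_le_one' hb _
  have h2 : h.eval y - h.eval z - h.derivative.eval b * (y - z) =
      ∑ n ∈ h.support, h.coeff n * (y ^ n - z ^ n - (n : E) * b ^ (n - 1) * (y - z)) := by
    rw [eval_eq_sum, eval_eq_sum, derivative_eval, Polynomial.sum, Polynomial.sum, Polynomial.sum,
      Finset.sum_mul, ← Finset.sum_sub_distrib, ← Finset.sum_sub_distrib]
    refine Finset.sum_congr rfl fun n _ => ?_
    ring
  rw [h2]
  refine Valuation.map_sum_le _ fun n _ => ?_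
  rw [map_mul]
  exact mul_le_of_le_one_of_le (hh n) (key n)

end

section

variable {L : Type u} [Field L] [NumberField L] (v : HeightOneSpectrum (𝓞 L))

theorem norm_le_iff (x y : v.adicCompletion L) : ‖x‖ ≤ ‖y‖ ↔ vv v x ≤ vv v y :=
  Valued.toNormedField.norm_le_iff

/-- **Newton's lemma** -/
theorem newton (h : (v.adicCompletion L)[X]) (hh : ∀ i, vv v (h.coeff i) ≤ 1)
    (b : v.adicCompletion L) (hb : vv v b ≤ 1) (π : v.adicCompletion L) (hπ : vv v π < 1)
    (h0 : vv v (h.eval b) ≤ vv v π) (h1 : vv v (h.derivative.eval b) = 1) :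
    ∃ y, vv v (y - b) ≤ vv v π ∧ h.eval y = 0 := by
  set d := h.derivative.eval b with hd
  have hd0 : d ≠ 0 := by
    intro h2
    rw [h2, map_zero] at h1
    exact zero_ne_one h1
  let s : Set (v.adicCompletion L) := {y | ‖y - b‖ ≤ ‖π‖}
  have hs : IsComplete s := by
    apply IsClosed.isComplete
    exact isClosed_le (by fun_prop) continuous_const
  have hint : ∀ y ∈ s, vv v y ≤ 1 := by
    intro y hy
    have h2 : vv v (y - b) ≤ vv v π := (norm_le_iff v _ _).1 hy
    have h3 : y = (y - b) + b := by ring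
    rw [h3]
    exact (Valuation.map_add _ _ _).trans (max_le (h2.trans hπ.le) hb)
  let T : v.adicCompletion L → v.adicCompletion L := fun y => y - h.eval y / d
  have hT : ∀ y ∈ s, ∀ z ∈ s, vv v (T y - T z) ≤ vv v π * vv v (y - z) := by
    intro y hy z hz
    have h2 : T y - T z = -((h.eval y - h.eval z - d * (y - z)) / d) := by
      simp only [T]
      field_simp
      ring
    rw [h2, Valuation.map_neg, map_div₀, h1, div_one]
    exact diff_bound (vv v) h hh b y z hb (hint y hy) (hint z hz) _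
      ((norm_le_iff v _ _).1 hy) ((norm_le_iff v _ _).1 hz)
  have hbs : b ∈ s := by
    change ‖b - b‖ ≤ ‖π‖
    rw [sub_self, norm_zero]
    exact norm_nonneg _
  have hmaps : Set.MapsTo T s s := by
    intro y hy
    change ‖T y - b‖ ≤ ‖π‖
    rw [norm_le_iff]
    have h2 : T y - b = (T y - T b) + (T b - b) := by ring
    rw [h2]
    refine (Valuation.map_add _ _ _).trans (max_le ?_ ?_)
    · refine (hT y hy b hbs).trans ?_
      have h3 : vv v (y - b) ≤ vv v π := (norm_le_iff v _ _).1 hy
      exact mul_le_of_le_one_right' (h3.trans hπ.le)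
    · have h3 : T b - b = -(h.eval b / d) := by
        simp only [T]
        ring
      rw [h3, Valuation.map_neg, map_div₀, h1, div_one]
      exact h0
  have hπn : ‖π‖ < 1 := by
    rw [← norm_one (α := v.adicCompletion L)]
    rw [← not_le, norm_le_iff, not_le, map_one]
    exact hπ
  have hcon : ContractingWith ⟨‖π‖, norm_nonneg _⟩ (hmaps.restrict T s s) := by
    refine ⟨by exact_mod_cast hπn, ?_⟩
    apply LipschitzWith.of_dist_le_mul
    rintro ⟨y, hy⟩ ⟨z, hz⟩
    change dist (T y) (T z) ≤ ‖π‖ * dist y z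
    rw [dist_eq_norm, dist_eq_norm, ← norm_mul, norm_le_iff, map_mul]
    exact hT y hy z hz
  obtain ⟨y, hys, hy, -⟩ := hcon.exists_fixedPoint' hs hmaps hbs (edist_ne_top _ _)
  refine ⟨y, (norm_le_iff v _ _).1 hys, ?_⟩
  have h2 : y - h.eval y / d = y := hy
  have h3 : h.eval y / d = 0 := by
    have := congrArg (fun t => y - t) h2
    simpa using this
  rcases div_eq_zero_iff.1 h3 with h4 | h4
  · exact h4
  · exact absurd h4 hd0

end

end Pool.Agent.W858.SG
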