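import Pool.Agent.H298R2.Kuyk5
import Pool.Agent.H391R2.T4.Abl
import Pool.Agent.W858.SG.Emb2

/-! # Specialisation of a finitely generated field at a point of a model -/

namespace Pool.Agent.W858.SG

open Polynomial NumberField Pool.Agent.W858.SF

theorem gen_top {F : Type} [Field F] [CharZero F] (b : F)
    (i : Algebra ℚ (IntermediateField.adjoin ℚ {b} : IntermediateField ℚ F))
    (x : (IntermediateField.adjoin ℚ {b} : IntermediateField ℚ F)) :
    x ∈ @IntermediateField.adjoin ℚ _ (IntermediateField.adjoin ℚ {b} : IntermediateField ℚ F) _ i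
      {(⟨b, IntermediateField.mem_adjoin_simple_self ℚ b⟩ :
        (IntermediateField.adjoin ℚ {b} : IntermediateField ℚ F))} := by
  obtain ⟨S, hS⟩ : ∃ S : Subfield (IntermediateField.adjoin ℚ {b} : IntermediateField ℚ F),
      S = (@IntermediateField.adjoin ℚ _ (IntermediateField.adjoin ℚ {b} : IntermediateField ℚ F) _ i
      {(⟨b, IntermediateField.mem_adjoin_simple_self ℚ b⟩ :
        (IntermediateField.adjoin ℚ {b} : IntermediateField ℚ F))}).toSubfield := ⟨_, rfl⟩
  have hbS : (⟨b, IntermediateField.mem_adjoin_simple_self ℚ b⟩ :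
        (IntermediateField.adjoin ℚ {b} : IntermediateField ℚ F)) ∈ S := by
    rw [hS]
    exact IntermediateField.mem_adjoin_simple_self ℚ _
  let T : IntermediateField ℚ F := (S.map (SubringClass.subtype (IntermediateField.adjoin ℚ {b} :
    IntermediateField ℚ F))).toIntermediateField (fun q => by
      rw [eq_ratCast]
      exact SubfieldClass.ratCast_mem _ q)
  have h1 : IntermediateField.adjoin ℚ {b} ≤ T := by
    rw [IntermediateField.adjoin_simple_le_iff]
    exact ⟨_, hbS, rfl⟩
  obtain ⟨y, hy, hyx⟩ := h1 x.2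
  have h3 : y = x := Subtype.ext hyx
  have h4 : x ∈ S := by
    rw [← h3]
    exact hy
  rw [hS] at h4
  exact h4

theorem lift_derangement {L F' : Type} [Field L] [Field F'] [Algebra L F'] [Normal L F']
    (τ : F' ≃ₐ[L] F') {I : Type} [Fintype I] (t : I → F') (p : L[X]) (c : F') (hc : c ≠ 0)
    (hp : p.map (algebraMap L F') = C c * ∏ i, (X - C (t i))) (hτ : ∀ i, τ (t i) ≠ t i) :
    ∃ σ' : AlgebraicClosure L ≃ₐ[L] AlgebraicClosure L,
      ∀ θ : AlgebraicClosure L, aeval θ p = 0 → σ' θ ≠ θ := by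
  have halg : Algebra.IsAlgebraic L F' := Normal.toIsAlgebraic
  let j : F' →ₐ[L] AlgebraicClosure L := IsAlgClosed.lift
  let _ : Algebra F' (AlgebraicClosure L) := j.toRingHom.toAlgebra
  have hj : ∀ x, algebraMap F' (AlgebraicClosure L) x = j x := fun _ => rfl
  have : IsScalarTower L F' (AlgebraicClosure L) :=
    IsScalarTower.of_algebraMap_eq fun x => (j.commutes x).symm
  refine ⟨τ.liftNormal (AlgebraicClosure L), fun θ hθ => ?_⟩
  have h1 : aeval θ p = ((p.map (algebraMap L F')).map
      (algebraMap F' (AlgebraicClosure L))).eval θ := by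
    rw [Polynomial.map_map, ← IsScalarTower.algebraMap_eq, eval_map_algebraMap]
  rw [h1, hp, Polynomial.map_mul, map_C, Polynomial.map_prod, eval_mul, eval_C, eval_prod,
    mul_eq_zero, or_iff_right (by
      intro h0
      exact hc ((map_eq_zero_iff _ (algebraMap F' (AlgebraicClosure L)).injective).1 h0)),
    Finset.prod_eq_zero_iff] at hθ
  obtain ⟨i, -, hi⟩ := hθ
  rw [Polynomial.map_sub, map_X, map_C, eval_sub, eval_X, eval_C, sub_eq_zero] at hi
  rw [hi, AlgEquiv.liftNormal_commutes]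
  intro h2
  exact hτ i ((algebraMap F' (AlgebraicClosure L)).injective h2)

theorem exists_spec {m : ℕ} {Q k R : Type} [Field Q] [Algebra (MvPolynomial (Fin m) ℚ) Q]
    [IsFractionRing (MvPolynomial (Fin m) ℚ) Q] [Field k] [CharZero k] [Algebra Q k]
    [Algebra (MvPolynomial (Fin m) ℚ) k] [IsScalarTower (MvPolynomial (Fin m) ℚ) Q k]
    [FiniteDimensional Q k] [CommRing R] [Algebra R k] (hinjk : Function.Injective (algebraMap R k))
    (α : k) (hα : IsIntegral (MvPolynomial (Fin m) ℚ) α)
    (hgen : IntermediateField.adjoin Q {α} = ⊤) (G : Finset R)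
    (hG : Algebra.adjoin ℤ (G : Set R) = ⊤) (D : R → MvPolynomial (Fin m) ℚ)
    (N : R → (MvPolynomial (Fin m) ℚ)[X])
    (hDN : ∀ r ∈ G, algebraMap _ k (D r) * algebraMap R k r = aeval α (N r))
    (hD : ∀ r ∈ G, D r ≠ 0) (U : Finset R) (hU : ∀ u ∈ U, u ≠ 0) (F : R[X])
    (hF : (F.map (algebraMap R k)).Separable)
    (σ : AlgebraicClosure k ≃ₐ[k] AlgebraicClosure k)
    (hσ : ∀ θ : AlgebraicClosure k, aeval θ (F.map (algebraMap R k)) = 0 → σ θ ≠ θ) :
    ∃ (L : Type) (_ : Field L) (_ : NumberField L) (P : R →+* L) (c : Fin m → L) (β : L),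
      (∀ x : L, x ∈ IntermediateField.adjoin ℚ {β}) ∧
      ((minpoly (MvPolynomial (Fin m) ℚ) α).map (spL c)).eval β = 0 ∧
      ((derivative (minpoly (MvPolynomial (Fin m) ℚ) α)).map (spL c)).eval β ≠ 0 ∧
      (∀ r ∈ G, spL c (D r) ≠ 0 ∧ spL c (D r) * P r = ((N r).map (spL c)).eval β) ∧
      (∀ r s : R, algebraMap R k s * α = algebraMap R k r → P s * β = P r) ∧
      (∀ u ∈ U, P u ≠ 0) ∧ (F.map P).Separable ∧
      ∃ σ' : AlgebraicClosure L ≃ₐ[L] AlgebraicClosure L,
        ∀ θ : AlgebraicClosure L, aeval θ (F.map P) = 0 → σ' θ ≠ θ := by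
  classical
  set f := F.map (algebraMap R k) with hf
  have hf0 : f ≠ 0 := hF.ne_zero
  have hczQ : CharZero Q := charZero_of_injective_algebraMap
    (IsFractionRing.injective (MvPolynomial (Fin m) ℚ) Q)
  have halg : Algebra.IsAlgebraic Q (AlgebraicClosure k) := Algebra.IsAlgebraic.trans Q k _
  obtain ⟨rs, hrs⟩ : ∃ rs : Finset (AlgebraicClosure k), rs = (f.aroots (AlgebraicClosure k)).toFinset :=
    ⟨_, rfl⟩
  have hrsmem : ∀ θ, θ ∈ rs ↔ aeval θ f = 0 := by
    intro θ
    rw [hrs, Multiset.mem_toFinset, mem_aroots]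
    exact ⟨fun h => h.2, fun h => ⟨hf0, h⟩⟩
  have hfac : f.map (algebraMap k (AlgebraicClosure k)) =
      C (algebraMap k (AlgebraicClosure k) f.leadingCoeff) * ∏ θ : rs, (X - C (θ : AlgebraicClosure k)) := by
    have h1 : (f.map (algebraMap k (AlgebraicClosure k))).Splits := IsAlgClosed.splits _
    have h2 := h1.eq_prod_roots
    have h3 : (f.map (algebraMap k (AlgebraicClosure k))).roots.Nodup :=
      nodup_roots hF.map
    rw [leadingCoeff_map] at h2
    have h4 : ((f.map (algebraMap k (AlgebraicClosure k))).roots.map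
        (fun a => X - C a)).prod = ∏ θ : rs, (X - C (θ : AlgebraicClosure k)) := by
      rw [Finset.prod_coe_sort rs (fun θ => X - C θ), hrs]
      change _ = (Multiset.map _ _).prod
      rw [Multiset.toFinset_val, h3.dedup]
    rw [← h4]
    exact h2
  obtain ⟨E, hfdE, hgalE, hSE⟩ := Pool.Agent.H298R2.Kuyk.exists_galois (Q := Q)
    (F := AlgebraicClosure k) ({algebraMap k (AlgebraicClosure k) α} ∪ (rs : Set (AlgebraicClosure k)))
    ((Set.finite_singleton _).union rs.finite_toSet)
    (fun x _ => (Algebra.IsAlgebraic.isAlgebraic x).isIntegral)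
  have hkE : ∀ x : k, algebraMap k (AlgebraicClosure k) x ∈ E := by
    intro x
    have h1 : IntermediateField.adjoin Q {α} ≤
        E.comap (IsScalarTower.toAlgHom Q k (AlgebraicClosure k)) := by
      rw [IntermediateField.adjoin_simple_le_iff]
      exact hSE (Or.inl rfl)
    rw [hgen] at h1
    exact h1 (IntermediateField.mem_top (x := x))
  let jk : k →+* E := (algebraMap k (AlgebraicClosure k)).codRestrict E hkE
  have hjk : ∀ x, ((jk x : E) : AlgebraicClosure k) = algebraMap k (AlgebraicClosure k) x :=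
    fun _ => rfl
  have hjkinj : Function.Injective jk := jk.injective
  have hjkMP : ∀ p : MvPolynomial (Fin m) ℚ, jk (algebraMap _ k p) = algebraMap _ E p := by
    intro p
    apply Subtype.ext
    rw [hjk, ← IsScalarTower.algebraMap_apply]
    rfl
  let θE : rs → E := fun θ => ⟨θ, hSE (Or.inr θ.2)⟩
  have hθE : ∀ θ : rs, ((θE θ : E) : AlgebraicClosure k) = θ := fun _ => rfl
  have hfacE : f.map jk = C (jk f.leadingCoeff) * ∏ θ : rs, (X - C (θE θ)) := by
    apply Polynomial.map_injective (algebraMap E (AlgebraicClosure k)) Subtype.val_injective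
    rw [Polynomial.map_map, Polynomial.map_mul, map_C, Polynomial.map_prod]
    simp only [Polynomial.map_sub, map_X, map_C]
    exact hfac
  have hlcf : f.leadingCoeff = algebraMap R k F.leadingCoeff := leadingCoeff_map_of_injective hinjk F
  set h := minpoly (MvPolynomial (Fin m) ℚ) α with hh
  have hmin := minpoly.isIntegrallyClosed_eq_field_fractions' (R := MvPolynomial (Fin m) ℚ) Q hα
  have hderiv : aeval α (derivative h) ≠ 0 := by
    have h1 : IsIntegral Q α := hα.tower_top
    have h2 : (minpoly Q α).Separable := (minpoly.irreducible h1).separable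
    have h3 := h2.aeval_derivative_ne_zero (minpoly.aeval Q α)
    rw [hmin, derivative_map, aeval_map_algebraMap] at h3
    exact h3
  -- the finite set of elements that stay nonzero
  obtain ⟨W0, hW0⟩ : ∃ W0 : Finset E, W0 = ({jk α, jk (aeval α (derivative h)),
      jk f.leadingCoeff} ∪ G.image (fun r => jk (algebraMap R k r)) ∪
      U.image (fun r => jk (algebraMap R k r)) ∪ Finset.univ.image θE ∪
      (Finset.univ ×ˢ Finset.univ).image (fun p : rs × rs => θE p.1 - θE p.2)) := ⟨_, rfl⟩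
  have mα : jk α ∈ W0 := by
    rw [hW0]
    simp
  have mh : jk (aeval α (derivative h)) ∈ W0 := by
    rw [hW0]
    simp
  have mlc : jk f.leadingCoeff ∈ W0 := by
    rw [hW0]
    simp
  have mG : ∀ r ∈ G, jk (algebraMap R k r) ∈ W0 := by
    intro r hr
    rw [hW0]
    simp only [Finset.mem_union, Finset.mem_image]
    exact Or.inl (Or.inl (Or.inl (Or.inr ⟨r, hr, rfl⟩)))
  have mU : ∀ r ∈ U, jk (algebraMap R k r) ∈ W0 := by
    intro r hr
    rw [hW0]
    simp only [Finset.mem_union, Finset.mem_image]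
    exact Or.inl (Or.inl (Or.inr ⟨r, hr, rfl⟩))
  have mθ : ∀ θ, θE θ ∈ W0 := by
    intro θ
    rw [hW0]
    simp only [Finset.mem_union, Finset.mem_image]
    exact Or.inl (Or.inr ⟨θ, Finset.mem_univ _, rfl⟩)
  have mθθ : ∀ θ θ', θE θ - θE θ' ∈ W0 := by
    intro θ θ'
    rw [hW0]
    simp only [Finset.mem_union, Finset.mem_image]
    exact Or.inr ⟨(θ, θ'), Finset.mem_product.2 ⟨Finset.mem_univ _, Finset.mem_univ _⟩, rfl⟩
  obtain ⟨a, ha, F', i1, i2, hfd', hgal', ψ, B, hR, hB, Φ, hW, hΦ, hΦψ⟩ :=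
    Pool.Agent.H298R2.Kuyk.spec_mv Pool.Agent.H391R2.T4.hilb_rat (Q := Q) (E := E)
      (W0 ∪ W0.image (fun x => x⁻¹)) (∏ r ∈ G, D r) (Finset.prod_ne_zero_iff.2 hD)
  have hcz : CharZero F' := algebraRat.charZero F'
  obtain rfl : i2 = DivisionRing.toRatAlgebra := Subsingleton.elim _ _
  have hnf : NumberField F' := ⟨⟩
  have hWB : ∀ x ∈ W0, x ∈ B := fun x hx => hW (Finset.mem_union_left _ hx)
  have hWBi : ∀ x ∈ W0, x⁻¹ ∈ B := fun x hx => hW (Finset.mem_union_right _
    (Finset.mem_image_of_mem _ hx))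
  have hne : ∀ (x : E) (hx : x ∈ W0), x ≠ 0 → Φ ⟨x, hWB x hx⟩ ≠ 0 := by
    intro x hx hx0 h0
    have h1 : (⟨x, hWB x hx⟩ : B) * ⟨x⁻¹, hWBi x hx⟩ = 1 := by
      apply Subtype.ext
      exact mul_inv_cancel₀ hx0
    have h2 := congrArg Φ h1
    rw [map_mul, h0, zero_mul, map_one] at h2
    exact zero_ne_one h2
  have hjkR : ∀ r : R, jk (algebraMap R k r) ∈ B := by
    have h8 : Algebra.adjoin ℤ (G : Set R) ≤
        subalgebraOfSubring (B.comap (jk.comp (algebraMap R k))) := by
      rw [Algebra.adjoin_le_iff]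
      intro r hr
      exact hWB _ (mG r hr)
    intro r
    have h9 : r ∈ Algebra.adjoin ℤ (G : Set R) := by
      rw [hG]
      exact Algebra.mem_top
    exact h8 h9
  let ρ : R →+* B := (jk.comp (algebraMap R k)).codRestrict B hjkR
  have hρ : ∀ r, ((ρ r : B) : E) = jk (algebraMap R k r) := fun _ => rfl
  let μ : MvPolynomial (Fin m) ℚ →+* B := (algebraMap (MvPolynomial (Fin m) ℚ) E).codRestrict B hR
  have hμ : ∀ p, ((μ p : B) : E) = algebraMap _ E p := fun _ => rfl
  let αB : B := ⟨jk α, hWB _ mα⟩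
  let θB : rs → B := fun θ => ⟨θE θ, hWB _ (mθ θ)⟩
  have hΦμ : ∀ p, Φ (μ p) = algebraMap ℚ F' (MvPolynomial.eval a p) := hΦ
  -- polynomials in `α`
  have hpolyα : ∀ p : (MvPolynomial (Fin m) ℚ)[X],
      (((p.map μ).eval αB : B) : E) = jk (aeval α p) := by
    intro p
    have h1 : (((p.map μ).eval αB : B) : E) = B.subtype (eval₂ μ αB p) := by
      rw [eval_map]
      rfl
    rw [h1, hom_eval₂, aeval_def, hom_eval₂]
    have h2 : B.subtype.comp μ = jk.comp (algebraMap (MvPolynomial (Fin m) ℚ) k) :=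
      RingHom.ext fun p => (hjkMP p).symm
    rw [h2]
    rfl
  let L : IntermediateField ℚ F' := IntermediateField.adjoin ℚ {Φ αB}
  have hβL : Φ αB ∈ L := IntermediateField.mem_adjoin_simple_self _ _
  have hnL : NumberField L := inferInstance
  let c : Fin m → L := fun i => ((a i : ℚ) : L)
  have hspL : ∀ p, ((spL c p : L) : F') = Φ (μ p) := by
    intro p
    rw [hΦμ]
    have h1 : (algebraMap L F').comp (spL c) = (algebraMap ℚ F').comp (MvPolynomial.eval a) := by
      apply MvPolynomial.ringHom_ext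
      · intro r
        simp [spL]
      · intro i
        simp [spL, c]
    exact RingHom.congr_fun h1 p
  have hpolyL : ∀ p : (MvPolynomial (Fin m) ℚ)[X],
      (((p.map (spL c)).eval (⟨Φ αB, hβL⟩ : L) : L) : F') = Φ ((p.map μ).eval αB) := by
    intro p
    have h1 : (((p.map (spL c)).eval (⟨Φ αB, hβL⟩ : L) : L) : F') =
        algebraMap L F' (eval₂ (spL c) (⟨Φ αB, hβL⟩ : L) p) := by
      rw [eval_map]
      rfl
    rw [h1, hom_eval₂, eval_map, hom_eval₂]
    have h2 : (algebraMap L F').comp (spL c) = Φ.comp μ := RingHom.ext fun p => hspL p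
    rw [h2]
    rfl
  have hDP : ∀ r ∈ G, μ (D r) * ρ r = ((N r).map μ).eval αB := by
    intro r hr
    apply Subtype.ext
    rw [hpolyα, ← hDN r hr, map_mul, hjkMP]
    rfl
  have hevD : ∀ r ∈ G, MvPolynomial.eval a (D r) ≠ 0 := by
    rw [map_prod] at ha
    exact Finset.prod_ne_zero_iff.1 ha
  have hΦD : ∀ r ∈ G, Φ (μ (D r)) ≠ 0 := by
    intro r hr
    rw [hΦμ, Ne, map_eq_zero_iff _ (algebraMap ℚ F').injective]
    exact hevD r hr
  have hPL : ∀ r : R, Φ (ρ r) ∈ L := by
    have h8 : Algebra.adjoin ℤ (G : Set R) ≤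
        subalgebraOfSubring (L.toSubfield.toSubring.comap (Φ.comp ρ)) := by
      rw [Algebra.adjoin_le_iff]
      intro r hr
      have h9 := congrArg Φ (hDP r hr)
      rw [map_mul, ← hpolyL, ← hspL] at h9
      have h10 : Φ (ρ r) = (((N r).map (spL c)).eval (⟨Φ αB, hβL⟩ : L) : L) / (spL c (D r) : L) := by
        rw [eq_div_iff (by
          rw [hspL]
          exact hΦD r hr), ← h9, mul_comm]
      change Φ (ρ r) ∈ L
      rw [h10]
      exact div_mem (SetLike.coe_mem _) (SetLike.coe_mem _)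
    intro r
    have h9 : r ∈ Algebra.adjoin ℤ (G : Set R) := by
      rw [hG]
      exact Algebra.mem_top
    exact h8 h9
  let P : R →+* L := (Φ.comp ρ).codRestrict L hPL
  have hP : ∀ r, ((P r : L) : F') = Φ (ρ r) := fun _ => rfl
  have hlcΦ : Φ (ρ F.leadingCoeff) ≠ 0 := by
    have h1 : ρ F.leadingCoeff = ⟨jk f.leadingCoeff, hWB _ mlc⟩ := by
      apply Subtype.ext
      exact congrArg jk hlcf.symm
    rw [h1]
    apply hne _ mlc
    rw [Ne, map_eq_zero_iff _ hjkinj]
    exact leadingCoeff_ne_zero.2 hf0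
  have hfacB : F.map ρ = C (ρ F.leadingCoeff) * ∏ θ : rs, (X - C (θB θ)) := by
    apply Polynomial.map_injective B.subtype Subtype.val_injective
    rw [Polynomial.map_map, Polynomial.map_mul, map_C, Polynomial.map_prod]
    simp only [Polynomial.map_sub, map_X, map_C]
    have h1 : F.map (B.subtype.comp ρ) = f.map jk := by
      rw [hf, Polynomial.map_map]
      rfl
    rw [h1, hfacE, hlcf]
    rfl
  have hfacF : F.map (Φ.comp ρ) = C (Φ (ρ F.leadingCoeff)) * ∏ θ : rs, (X - C (Φ (θB θ))) := by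
    rw [← Polynomial.map_map, hfacB, Polynomial.map_mul, map_C, Polynomial.map_prod]
    simp only [Polynomial.map_sub, map_X, map_C]
  have hΦθ : Function.Injective fun θ : rs => Φ (θB θ) := by
    intro θ θ' h1
    by_contra hne'
    have h2 : θE θ - θE θ' ≠ 0 := by
      rw [sub_ne_zero]
      intro h3
      apply hne'
      apply Subtype.ext
      have h4 := congrArg (fun t : E => (t : AlgebraicClosure k)) h3
      exact h4
    apply hne _ (mθθ θ θ') h2
    have h3 : (⟨θE θ - θE θ', hWB _ (mθθ θ θ')⟩ : B) = θB θ - θB θ' := Subtype.ext rfl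
    rw [h3, map_sub, sub_eq_zero]
    exact h1
  refine ⟨L, inferInstance, hnL, P, c, ⟨Φ αB, hβL⟩, ?_, ?_, ?_, ?_, ?_, ?_, ?_, ?_⟩
  · exact fun x => gen_top (Φ αB) _ x
  · apply Subtype.ext
    rw [hpolyL]
    have h1 : (h.map μ).eval αB = 0 := by
      apply Subtype.ext
      rw [hpolyα, minpoly.aeval, map_zero]
      rfl
    rw [h1, map_zero]
    rfl
  · intro h0
    have h1 := congrArg (algebraMap L F') h0
    rw [map_zero] at h1
    have h2 : Φ (((derivative h).map μ).eval αB) = 0 := by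
      rw [← hpolyL]
      exact h1
    have h3 : ((derivative h).map μ).eval αB = ⟨jk (aeval α (derivative h)), hWB _ mh⟩ := by
      apply Subtype.ext
      rw [hpolyα]
    rw [h3] at h2
    exact hne _ mh (by
      rw [Ne, map_eq_zero_iff _ hjkinj]
      exact hderiv) h2
  · intro r hr
    refine ⟨?_, ?_⟩
    · intro h0
      apply hΦD r hr
      rw [← hspL, h0]
      rfl
    · apply Subtype.ext
      rw [hpolyL, ← hDP r hr, map_mul, ← hspL]
      rfl
  · intro r s hrs
    apply Subtype.ext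
    change Φ (ρ s) * Φ αB = Φ (ρ r)
    rw [← map_mul]
    congr 1
    apply Subtype.ext
    change jk (algebraMap R k s) * jk α = jk (algebraMap R k r)
    rw [← map_mul, hrs]
  · intro u hu h0
    have h1 : Φ (ρ u) = 0 := by
      rw [← hP, h0]
      rfl
    refine hne _ (mU u hu) ?_ h1
    rw [Ne, map_eq_zero_iff _ hjkinj, map_eq_zero_iff _ hinjk]
    exact hU u hu
  · rw [← Polynomial.separable_map (algebraMap L F'), Polynomial.map_map]
    change (F.map (Φ.comp ρ)).Separable
    rw [hfacF]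
    exact Separable.unit_mul (isUnit_C.2 hlcΦ.isUnit) (separable_prod_X_sub_C_iff.2 hΦθ)
  · let σE : E ≃ₐ[Q] E := (σ.restrictScalars Q).restrictNormal E
    have hσE : ∀ x : E, ((σE x : E) : AlgebraicClosure k) = σ x := fun x =>
      AlgEquiv.restrictNormal_commutes (σ.restrictScalars Q) E x
    have hσjk : ∀ y, σE (jk y) = jk y := by
      intro y
      apply Subtype.ext
      rw [hσE, hjk, AlgEquiv.commutes]
    have hτΦ : ∀ (b b' : B), σE b = b' → ψ σE (Φ b) = Φ b' := by
      intro b b' hb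
      rw [← hΦψ]
      congr 1
      exact Subtype.ext hb
    have hτα : ψ σE (Φ αB) = Φ αB := hτΦ _ _ (hσjk α)
    have hτL : ∀ x ∈ L, ψ σE x = x := by
      have h1 : L ≤ IntermediateField.fixedField (Subgroup.zpowers (ψ σE)) := by
        change IntermediateField.adjoin ℚ {Φ αB} ≤ _
        rw [IntermediateField.adjoin_simple_le_iff, IntermediateField.mem_fixedField_iff]
        intro g hg
        obtain ⟨n, rfl⟩ := Subgroup.mem_zpowers_iff.1 hg
        have h2 : ψ σE ∈ MulAction.stabilizer (F' ≃ₐ[ℚ] F') (Φ αB) := hτα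
        exact zpow_mem h2 n
      intro x hx
      have h2 := h1 hx
      rw [IntermediateField.mem_fixedField_iff] at h2
      exact h2 _ (Subgroup.mem_zpowers _)
    let τL : F' ≃ₐ[L] F' := AlgEquiv.ofRingEquiv (f := (ψ σE).toRingEquiv)
      (fun x => hτL _ x.2)
    refine lift_derangement τL (fun θ => Φ (θB θ)) (F.map P) _ hlcΦ ?_ ?_
    · rw [Polynomial.map_map]
      exact hfacF
    · intro θ hθ
      have h0 : aeval ((θ : rs) : AlgebraicClosure k) f = 0 := (hrsmem _).1 θ.2
      have h1 : σ (θ : AlgebraicClosure k) ∈ rs := by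
        rw [hrsmem]
        have h2 := congrArg σ h0
        rw [map_zero] at h2
        rw [← h2]
        exact (aeval_algHom_apply (σ : AlgebraicClosure k →ₐ[k] AlgebraicClosure k) _ _)
      have h2 : ψ σE (Φ (θB θ)) = Φ (θB ⟨σ θ, h1⟩) := by
        apply hτΦ
        apply Subtype.ext
        exact hσE _
      have h3 : Φ (θB ⟨σ θ, h1⟩) = Φ (θB θ) := by
        rw [← h2]
        exact hθ
      have h4 := congrArg Subtype.val (hΦθ h3)
      exact hσ _ h0 h4

end Pool.Agent.W858.SG
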